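import Mathlib
import Pool.Agent.H76.CBFinal
import Pool.Agent.H55.CK.Final
import Pool.Agent.H96.CK.Adapt

/-!
# The Cantor-Bendixson rank of the space of `d`-dimensional shifts is the Church-Kleene ordinal

For every `d ≥ 2` the rank of `S^d` is `ω₁^CK`, the least ordinal which is larger than the order
types of all computable well-orders of `ℕ`; this ordinal is larger than `ω`, so the conjecture
that the rank is `ω` is false for every `d ≥ 2`.

The definitions `Config`, `delta`, the metric space of configurations, `IsShift`, `ShiftSpace`,
`cbRank` are in `Pool/Agent/H76/CBSpace.lean`, the definition of `omega1CK` is in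
`Pool/Agent/H55/CK/Defs.lean`.

Upper bound (`Pool/Agent/H55/CK`): a shift which lies in an open countable set of shifts has a
rank which is bounded by the rank of a computable well-founded tree (Kreisel's argument).
Lower bound: for every computable well-order `r` there is a set of square tiles with countably
many subsystems and a strictly increasing chain of subsystems of order type `r`
(`Pool/Agent/H96/CK`, a hierarchical skeleton which simulates counter machines).
-/

namespace Pool.Agent.Results.MP_73a9ed_an.ExactRank

open H76.CB H55.CK Ordinal

/-- For every `d ≥ 2` the Cantor-Bendixson rank of the space of `d`-dimensional shifts is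
`ω₁^CK`, and `ω < ω₁^CK`. -/
theorem result :
    (∀ d : ℕ, 2 ≤ d → cbRank (ShiftSpace d) = omega1CK) ∧ (ω : Ordinal.{0}) < omega1CK := by
  have h : ∀ d : ℕ, 2 ≤ d → cbRank (ShiftSpace d) = omega1CK := rank_eq H96.CK.tiles
  refine ⟨h, ?_⟩
  have h1 : (ω : Ordinal.{0}) < ω ^ (3 - 1) :=
    calc (ω : Ordinal.{0}) = ω ^ 1 := (pow_one _).symm
      _ < ω ^ (3 - 1) := pow_lt_pow_right₀ one_lt_omega0 (by norm_num)
  rw [← h 3 (by norm_num)]
  exact h1.trans_le (rank_lower_bound 3 (by norm_num))

end Pool.Agent.Results.MP_73a9ed_an.ExactRank
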